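import Pool.Agent.Helper55.XA.Good
import Pool.Agent.Helper28.HN.Cfg

/-!
The data of `Ev` at the limit point (project XN, MP_9410e4).
-/

namespace Pool.Agent.Helper55.XA

open Pool.Agent.Helper24.HN Pool.Agent.Helper28.HN

variable {p : ℕ} [Fact p.Prime]

theorem residue_eq {a b : ℤ_[p]} (h : ‖a - b‖ ≤ (p : ℝ) ^ (-2 : ℤ)) :
    IsLocalRing.residue ℤ_[p] a = IsLocalRing.residue ℤ_[p] b := by
  rw [← sub_eq_zero, ← map_sub, IsLocalRing.residue_eq_zero_iff, IsLocalRing.mem_maximalIdeal,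
    PadicInt.mem_nonunits]
  exact h.trans_lt pow_two_le

/-- A matrix near an invertible matrix is invertible. -/
theorem det_unit_of_near {ι : Type*} [Fintype ι] [DecidableEq ι] {A B : Matrix ι ι ℤ_[p]}
    (hB : IsUnit B.det) (h : ∀ i j, ‖A i j - B i j‖ ≤ (p : ℝ) ^ (-2 : ℤ)) : IsUnit A.det := by
  have e : A.map (IsLocalRing.residue ℤ_[p]) = B.map (IsLocalRing.residue ℤ_[p]) := by
    ext i j
    exact residue_eq (h i j)
  have e2 : IsLocalRing.residue ℤ_[p] A.det = IsLocalRing.residue ℤ_[p] B.det := by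
    rw [RingHom.map_det, RingHom.map_det]
    exact congrArg Matrix.det e
  have h3 : IsUnit (IsLocalRing.residue ℤ_[p] A.det) := by
    rw [e2]
    exact hB.map _
  exact isUnit_of_map_unit _ _ h3

/-- The directions at the zeros near the reference configuration span the tangent space. -/
theorem span_of_Vm {m : ℕ} (c : Ix m → ℤ_[p]) (k : Un m → ℤ_[p]) (hP : IsUnit (Vm c k).det)
    (L : Loc p (m + 1)) (hxi : ∀ x z, L.xi x z = vh c (yh c (aff x) z))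
    (x1 : V p (m + 1)) (ζ : Fin (m + 2) → ℤ_[p])
    (h1 : ‖x1 - fun i => k (.inl i)‖ ≤ (p : ℝ) ^ (-2 : ℤ))
    (hz : ∀ a, a ≠ 0 → ‖ζ a - k (.inr a)‖ ≤ (p : ℝ) ^ (-2 : ℤ)) :
    ⊤ ≤ Submodule.span ℚ_[p] ((lin L x1 ζ).v '' {a | a ≠ 0}) := by
  set A : Matrix (Fin (m + 1)) (Fin (m + 1)) ℤ_[p] := fun a i => L.xi x1 (ζ a.succ) i with hA
  have h2 : IsUnit A.det := by
    refine det_unit_of_near hP fun a i => ?_
    have h3 : ‖L.xi x1 (ζ a.succ) - L.xi (fun i => k (.inl i)) (k (.inr a.succ))‖ ≤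
        (p : ℝ) ^ (-2 : ℤ) := (L.hxi _ _ _ _).trans (max_le h1 (hz _ (Fin.succ_ne_zero a)))
    have h4 : Vm c k a i = L.xi (fun i => k (.inl i)) (k (.inr a.succ)) i := by
      rw [hxi]
      rfl
    rw [h4]
    exact (norm_le_pi_norm
      (L.xi x1 (ζ a.succ) - L.xi (fun i => k (.inl i)) (k (.inr a.succ))) i).trans h3
  set B : Matrix (Fin (m + 1)) (Fin (m + 1)) ℚ_[p] := A.map (PadicInt.Coe.ringHom (p := p)) with hB
  have h5 : IsUnit B := by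
    rw [Matrix.isUnit_iff_isUnit_det]
    have : B.det = PadicInt.Coe.ringHom (p := p) A.det := by
      rw [RingHom.map_det]
      rfl
    rw [this]
    exact h2.map _
  have h6 : LinearIndependent ℚ_[p] B.row := Matrix.linearIndependent_rows_of_isUnit h5
  have h7 := h6.span_eq_top_of_card_eq_finrank (by simp)
  rw [← h7]
  refine Submodule.span_mono ?_
  rintro _ ⟨a, rfl⟩
  exact ⟨a.succ, Fin.succ_ne_zero a, rfl⟩

variable {n : ℕ} {L : Loc p n} {J : Type} [DecidableEq J] {R : Ref L J}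

theorem dF_ne' {x1 : V p n} {ζ : J → ℤ_[p]} (h1 : ‖x1 - R.u0‖ ≤ (p : ℝ) ^ (-2 : ℤ))
    {a b : J} {w : ℤ_[p]} (hw : ‖w - R.z a‖ ≤ (p : ℝ) ^ (-2 : ℤ))
    (hb : ‖ζ b - R.z b‖ ≤ (p : ℝ) ^ (-2 : ℤ)) (hab : a ≠ b) :
    L.dF x1 (L.xi x1 (ζ b)) w ≠ 0 := by
  have := dF_ne (R := R) (x1 := x1) (ζ := Function.update ζ a w) h1 (a := a) (b := b)
    (by rw [Function.update_self]; exact hw)
    (by rw [Function.update_of_ne hab.symm]; exact hb) hab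
  rwa [Function.update_self, Function.update_of_ne hab.symm] at this

/-- The linear form of a point near the zero `m` does not vanish at the direction `j`. -/
theorem near_ne {x1 : V p n} {ζ : J → ℤ_[p]} (h1 : ‖x1 - R.u0‖ ≤ (p : ℝ) ^ (-2 : ℤ))
    (hj : ‖ζ R.j - R.z R.j‖ ≤ (p : ℝ) ^ (-2 : ℤ)) {w : ℤ_[p]}
    (hw : ‖w - R.z R.m‖ ≤ (p : ℝ) ^ (-2 : ℤ)) :
    (lin L x1 ζ).phi (w : ℚ_[p]) ((lin L x1 ζ).v R.j) ≠ 0 := by
  have e : (lin L x1 ζ).phi (w : ℚ_[p]) ((lin L x1 ζ).v R.j) =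
      ((L.dF x1 (L.xi x1 (ζ R.j)) w : ℤ_[p]) : ℚ_[p]) := lin_phi L x1 ζ _ _
  intro h0
  exact dF_ne' (R := R) h1 hw hj R.hjm.symm (PadicInt.coe_eq_zero.1 (e.symm.trans h0))

/-- The data of `Ev` at the limit point. -/
theorem ev_of (M : Mems L R) (x1 : V p n) (ζ : J → ℤ_[p])
    (h1 : ‖x1 - R.u0‖ ≤ (p : ℝ) ^ (-2 : ℤ)) (hA : L.A x1 = 0) (hB : L.B x1 = 0)
    (hC : L.C x1 = 0)
    (hz : ∀ a, a ≠ R.y → ‖ζ a - R.z a‖ ≤ (p : ℝ) ^ (-2 : ℤ) ∧ L.psi x1 (ζ a) = 0)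
    (hsp : ⊤ ≤ Submodule.span ℚ_[p] ((lin L x1 ζ).v '' {a | a ≠ R.y}))
    {e : Fin n → ℚ_[p]} {ρ : ℚ_[p]}
    (hel : (lin L x1 ζ).phi ((lin L x1 ζ).ζ R.l) e = 0)
    (hej : (lin L x1 ζ).phi ((lin L x1 ζ).ζ R.j) e = 0) (he : (lin L x1 ζ).ld e = 1)
    (hT : (lin L x1 ζ).Tp R.j [R.m, R.l, R.j] e = ρ • e) (hρ : ‖ρ‖ = (p : ℝ) ^ (-1 : ℤ)) :
    Helper3.XA.Loop.Ev (lin L x1 ζ) R.y R.j R.l R.m e ρ where
  good := good M x1 ζ h1 hA hB hC hz hsp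
  jy := R.hyj.symm
  ly := R.hyl.symm
  my := R.hym.symm
  jl := R.hlj.symm
  mj := R.hjm.symm
  ml := R.hml
  el := hel
  ej := hej
  e1 := he
  ev := hT
  r0 := by
    intro h0
    rw [h0, norm_zero] at hρ
    exact (zpk_pos (p := p) (-1)).ne hρ
  r1 := fun k hk h0 => by
    have h2 : ‖ρ ^ k‖ < 1 := by
      rw [norm_pow, hρ]
      refine pow_lt_one₀ (zpk_pos _).le ?_ hk.ne'
      have := zpk_lt (p := p) (show (-1 : ℤ) < 0 by norm_num)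
      rwa [zpow_zero] at this
    rw [h0, norm_one] at h2
    exact lt_irrefl _ h2

end Pool.Agent.Helper55.XA
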