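import Pool.Agent.Helper3.XA.Span
import Pool.Agent.Helper24.HN.Linear

/-!
The linear data at the limit point are good (project XN, MP_9410e4).
-/

namespace Pool.Agent.Helper55.XA

open Pool.Agent.Helper24.HN

variable {p : ℕ} [Fact p.Prime] {n : ℕ}

variable {L : Loc p n} {J : Type} [DecidableEq J] {R : Ref L J}

/-- The derivative at the other zeros does not vanish. -/
theorem dF_ne {x1 : V p n} {ζ : J → ℤ_[p]} (h1 : ‖x1 - R.u0‖ ≤ (p : ℝ) ^ (-2 : ℤ))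
    {a b : J} (ha : ‖ζ a - R.z a‖ ≤ (p : ℝ) ^ (-2 : ℤ)) (hb : ‖ζ b - R.z b‖ ≤ (p : ℝ) ^ (-2 : ℤ))
    (hab : a ≠ b) : L.dF x1 (L.xi x1 (ζ b)) (ζ a) ≠ 0 := by
  have h2 : ‖L.dF x1 (L.xi x1 (ζ b)) (ζ a) - L.dF R.u0 (L.xi R.u0 (R.z b)) (R.z a)‖ ≤
      (p : ℝ) ^ (-2 : ℤ) := L.dF_near _ _ _ _ _ _ h1 (xi_near R h1 hb) ha
  have h3 : ‖L.dF R.u0 (L.xi R.u0 (R.z b)) (R.z a)‖ = 1 ∨
      ‖L.dF R.u0 (L.xi R.u0 (R.z b)) (R.z a)‖ = (p : ℝ) ^ (-1 : ℤ) := by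
    by_cases hj : a = R.j ∧ b = R.m
    · right
      rw [hj.1, hj.2]
      exact R.hs
    · left
      exact R.hT a b hab (by tauto)
  intro h0
  rw [h0, zero_sub, norm_neg] at h2
  rcases h3 with h3 | h3
  · rw [h3] at h2
    exact absurd h2 (not_le.mpr pow_two_le)
  · rw [h3] at h2
    exact absurd h2 (not_le.mpr (zpk_lt (by norm_num)))

/-- GOOD. The linear data at the limit point are good. -/
theorem good (M : Mems L R) (x1 : V p n) (ζ : J → ℤ_[p])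
    (h1 : ‖x1 - R.u0‖ ≤ (p : ℝ) ^ (-2 : ℤ)) (hA : L.A x1 = 0) (hB : L.B x1 = 0)
    (hC : L.C x1 = 0)
    (hz : ∀ a, a ≠ R.y → ‖ζ a - R.z a‖ ≤ (p : ℝ) ^ (-2 : ℤ) ∧ L.psi x1 (ζ a) = 0)
    (hsp : ⊤ ≤ Submodule.span ℚ_[p] ((lin L x1 ζ).v '' {a | a ≠ R.y})) :
    Helper3.XA.Loop.Good (lin L x1 ζ) R.y where
  diag := fun a ha => by
    have e : (lin L x1 ζ).phi ((ζ a : ℤ_[p]) : ℚ_[p]) (cst (L.xi x1 (ζ a))) =
        ((L.dF x1 (L.xi x1 (ζ a)) (ζ a) : ℤ_[p]) : ℚ_[p]) := lin_phi L x1 ζ _ _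
    have e2 := M.rel x1 (ζ a) h1 hA hB hC
    rw [(hz a ha).2] at e2
    rw [e2, PadicInt.coe_zero] at e
    exact e
  off := fun a b ha hb hab => by
    have e : (lin L x1 ζ).phi ((ζ a : ℤ_[p]) : ℚ_[p]) (cst (L.xi x1 (ζ b))) =
        ((L.dF x1 (L.xi x1 (ζ b)) (ζ a) : ℤ_[p]) : ℚ_[p]) := lin_phi L x1 ζ _ _
    intro h0
    have h4 : ((L.dF x1 (L.xi x1 (ζ b)) (ζ a) : ℤ_[p]) : ℚ_[p]) = 0 := e.symm.trans h0
    exact dF_ne (R := R) h1 (hz a ha).1 (hz b hb).1 hab (PadicInt.coe_eq_zero.1 h4)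
  zne := fun a b ha hb hab => by
    intro h0
    have h4 : ζ a = ζ b := PadicInt.ext h0
    have h5 : ‖R.z a - R.z b‖ ≤ (p : ℝ) ^ (-2 : ℤ) := by
      refine tri_le ((norm_sub_rev _ _).le.trans (hz a ha).1) ?_
      rw [h4]
      exact (hz b hb).1
    rw [R.hz a b hab] at h5
    exact absurd h5 (not_le.mpr pow_two_le)
  span := hsp

end Pool.Agent.Helper55.XA
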