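import Pool.Agent.Helper55.XA.Sp
import Pool.Agent.Helper24.H2.Defs

/-!
The directions span the tangent space: type 2 (project XN, MP_9410e4).
-/

namespace Pool.Agent.Helper55.XA

open Pool.Agent.Helper24.HN

variable {p : ℕ} [Fact p.Prime]

/-- The directions at the zeros near a reference configuration span the tangent space. -/
theorem span_of_xi {m : ℕ} (L : Loc p (m + 1)) (u0 : V p (m + 1)) (z : Fin (m + 2) → ℤ_[p])
    (hdet : IsUnit (Matrix.of fun (a : Fin (m + 1)) (i : Fin (m + 1)) =>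
      L.xi u0 (z a.succ) i).det)
    (x1 : V p (m + 1)) (ζ : Fin (m + 2) → ℤ_[p]) (h1 : ‖x1 - u0‖ ≤ (p : ℝ) ^ (-2 : ℤ))
    (hz : ∀ a, a ≠ 0 → ‖ζ a - z a‖ ≤ (p : ℝ) ^ (-2 : ℤ)) :
    ⊤ ≤ Submodule.span ℚ_[p] ((lin L x1 ζ).v '' {a | a ≠ 0}) := by
  set A : Matrix (Fin (m + 1)) (Fin (m + 1)) ℤ_[p] := fun a i => L.xi x1 (ζ a.succ) i with hA
  have h2 : IsUnit A.det := by
    refine det_unit_of_near hdet fun a i => ?_
    have h3 : ‖L.xi x1 (ζ a.succ) - L.xi u0 (z a.succ)‖ ≤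
        (p : ℝ) ^ (-2 : ℤ) := (L.hxi _ _ _ _).trans (max_le h1 (hz _ (Fin.succ_ne_zero a)))
    exact (norm_le_pi_norm (L.xi x1 (ζ a.succ) - L.xi u0 (z a.succ)) i).trans h3
  set B : Matrix (Fin (m + 1)) (Fin (m + 1)) ℚ_[p] := A.map (PadicInt.Coe.ringHom (p := p)) with hB
  have h5 : IsUnit B := by
    rw [Matrix.isUnit_iff_isUnit_det]
    have : B.det = PadicInt.Coe.ringHom (p := p) A.det := by
      rw [RingHom.map_det]
      rfl
    rw [this]
    exact h2.map _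
  have h6 : LinearIndependent ℚ_[p] B.row := Matrix.linearIndependent_rows_of_isUnit h5
  have h7 := h6.span_eq_top_of_card_eq_finrank (by simp)
  rw [← h7]
  refine Submodule.span_mono ?_
  rintro _ ⟨a, rfl⟩
  exact ⟨a.succ, Fin.succ_ne_zero a, rfl⟩

open Pool.Agent.Helper28.HN (Un aff)
open Pool.Agent.Helper24.H2

/-- Type 2: the direction may be multiplied by a function which is a unit at the reference point. -/
theorem span_of_Vm2 {m : ℕ} (c : Pool.Agent.Helper24.H2.Ix m → ℤ_[p]) (k : Un m → ℤ_[p])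
    (hP : IsUnit (Pool.Agent.Helper24.H2.Vm c k).det) (g : V p (m + 1) → ℤ_[p])
    (hg : IsUnit (g fun i => k (.inl i)))
    (L : Loc p (m + 1))
    (hxi : ∀ x z, L.xi x z = fun i => g x * vh c (yh c (aff x) z) i)
    (x1 : V p (m + 1)) (ζ : Fin (m + 2) → ℤ_[p])
    (h1 : ‖x1 - fun i => k (.inl i)‖ ≤ (p : ℝ) ^ (-2 : ℤ))
    (hz : ∀ a, a ≠ 0 → ‖ζ a - k (.inr a)‖ ≤ (p : ℝ) ^ (-2 : ℤ)) :
    ⊤ ≤ Submodule.span ℚ_[p] ((lin L x1 ζ).v '' {a | a ≠ 0}) := by
  refine span_of_xi L (fun i => k (.inl i)) (fun a => k (.inr a)) ?_ x1 ζ h1 hz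
  have e : (Matrix.of fun (a : Fin (m + 1)) (i : Fin (m + 1)) =>
      L.xi (fun i => k (.inl i)) (k (.inr a.succ)) i) =
      (g fun i => k (.inl i)) • Pool.Agent.Helper24.H2.Vm c k := by
    ext a i
    simp only [Matrix.of_apply, hxi, Matrix.smul_apply, smul_eq_mul, Pool.Agent.Helper24.H2.Vm]
  rw [e, Matrix.det_smul]
  exact (hg.pow _).mul hP

end Pool.Agent.Helper55.XA
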